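import Mathlib
import Pool.Agent.Q110.Nuc.Fun
import Pool.Agent.H194R3.Cartan.P1

/-!
# MP_60ed70_an: a compact set in `ℂ × ℙ¹` whose nucleus is not contained in its core
-/

set_option autoImplicit false

open Set Filter Topology
open scoped ContDiff Manifold

namespace Pool.Agent.Results.MP_60ed70_an.CoreNucleus

open Pool.Agent.Q110.Nuc Pool.Agent.H194R3.Cartan

section general

variable (V : Type*) [NormedAddCommGroup V] [NormedSpace ℂ V]
  {M : Type*} [TopologicalSpace M] [ChartedSpace V M]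

/-- `f` is smooth at `x`, in the chart at `x` -/
def SmoothAt (f : M → ℝ) (x : M) : Prop :=
  ContDiffAt ℝ ∞ (f ∘ (chartAt V x).symm) (chartAt V x x)

/-- the Levi form of `f` at `x`, in the chart at `x` -/
noncomputable def leviAt (f : M → ℝ) (x : M) (v : V) : ℝ :=
  levi (f ∘ (chartAt V x).symm) (chartAt V x x) v

/-- the core of `K`: the points of `K` at which no function that is smooth and plurisubharmonic
on an open neighbourhood of `K` is strictly plurisubharmonic -/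
def core (K : Set M) : Set M :=
  {x | x ∈ K ∧ ¬ ∃ (N : Set M) (f : M → ℝ), IsOpen N ∧ K ⊆ N ∧
    (∀ y ∈ N, SmoothAt V f y ∧ ∀ v, 0 ≤ leviAt V f y v) ∧ ∀ v, v ≠ 0 → 0 < leviAt V f x v}

/-- `K''` arises from `K'` by a spherical cut (`n` is the complex dimension) -/
def SphericalCut (n : ℕ) [NeZero n] (K' K'' : Set M) : Prop :=
  IsCompact K' ∧ IsCompact K'' ∧ ∃ (r : ℝ) (U : Set (EuclideanSpace ℂ (Fin n)))
    (Φ : EuclideanSpace ℂ (Fin n) → M), 0 < r ∧ r < 1 ∧ IsOpen U ∧ hat n r ⊆ U ∧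
    MDifferentiableOn 𝓘(ℂ, EuclideanSpace ℂ (Fin n)) 𝓘(ℂ, V) Φ U ∧ InjOn Φ U ∧
    Φ '' cap n r ∩ K' = ∅ ∧ K'' = K' \ Φ '' interior (hat n r)

/-- the nucleus of `K`: the intersection of all compact sets obtained from `K` by a finite chain
of spherical cuts -/
def nucleus (n : ℕ) [NeZero n] (K : Set M) : Set M :=
  ⋂₀ {K' | Relation.ReflTransGen (SphericalCut V n) K K'}

end general

/-- the manifold `ℂ × ℙ¹` -/
abbrev MM := ℂ × P1

noncomputable instance instCS : ChartedSpace (ℂ × ℂ) MM :=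
  inferInstanceAs (ChartedSpace (ModelProd ℂ ℂ) (ℂ × P1))

instance instMan : IsManifold 𝓘(ℂ, ℂ × ℂ) ω MM := by
  rw [modelWithCornersSelf_prod]
  exact inferInstanceAs (IsManifold ((𝓘(ℂ, ℂ)).prod 𝓘(ℂ, ℂ)) ω (ℂ × P1))

theorem secondCountable : SecondCountableTopology MM :=
  ChartedSpace.secondCountable_of_sigmaCompact (ℂ × ℂ) MM

/-- the compact set -/
def KK : Set MM := (Metric.sphere (0 : ℂ) 1 ×ˢ univ) ∪ (Metric.closedBall (0 : ℂ) 1 ×ˢ {P1.coe 0})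

theorem KK_compact : IsCompact KK :=
  ((isCompact_sphere _ _).prod isCompact_univ).union
    ((isCompact_closedBall _ _).prod isCompact_singleton)

/-- the small disc in `ℙ¹` -/
def disc : Set P1 := P1.coe '' Metric.ball 0 (1 / 4)

theorem disc_open : IsOpen disc := P1.isOpenEmbedding_coe.isOpenMap _ Metric.isOpen_ball

theorem coe_inj {z w : ℂ} (h : P1.coe z = P1.coe w) : z = w := P1.isOpenEmbedding_coe.injective h

open Classical in
/-- the plurisubharmonic function -/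
noncomputable def ff (p : MM) : ℝ :=
  if p.2 ∈ disc then mod (p.1, P1.chartZero p.2) else ‖p.1‖ ^ 2

/-- the neighbourhood of `KK` -/
def NN : Set MM := {p | 1 / 2 < ‖p.1‖ ^ 2} ∪ {p | p.2 ∈ disc}

theorem NN_open : IsOpen NN :=
  (isOpen_lt continuous_const (by fun_prop)).union (disc_open.preimage continuous_snd)

theorem KK_sub_NN : KK ⊆ NN := by
  rintro ⟨ζ, x⟩ (⟨h1, -⟩ | ⟨-, h2⟩)
  · left
    have h3 : ‖ζ‖ = 1 := by simpa using h1
    show 1 / 2 < ‖ζ‖ ^ 2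
    rw [h3]; norm_num
  · right
    have h3 : x = P1.coe 0 := h2
    show x ∈ disc
    rw [h3]
    exact ⟨0, by simp, rfl⟩

theorem ff_outer {p : MM} (hp : 1 / 2 < ‖p.1‖ ^ 2) : ff p = ‖p.1‖ ^ 2 := by
  unfold ff
  by_cases h : p.2 ∈ disc
  · rw [if_pos h]
    obtain ⟨w, hw, hw2⟩ := h
    have h1 : ‖w‖ < 1 / 4 := by simpa using hw
    unfold mod
    rw [← hw2, P1.chartZero_coe]
    show ‖p.1‖ ^ 2 + tB (‖w‖ ^ 2 + 1 / 8 - ‖p.1‖ ^ 2 / 2) = ‖p.1‖ ^ 2
    rw [tB_zero, add_zero]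
    have h2 : ‖w‖ ^ 2 ≤ 1 / 16 := by nlinarith [norm_nonneg w]
    linarith
  · rw [if_neg h]

theorem ff_inner (ζ w : ℂ) (hw : ‖w‖ < 1 / 4) : ff (ζ, P1.coe w) = mod (ζ, w) := by
  unfold ff
  rw [if_pos ⟨w, by simpa using hw, rfl⟩, P1.chartZero_coe]

theorem chart_fst (p : MM) (z : ℂ × ℂ) : ((chartAt (ℂ × ℂ) p).symm z).1 = z.1 := rfl

theorem chart_apply_fst (p : MM) : (chartAt (ℂ × ℂ) p p).1 = p.1 := rfl

theorem chart_coe (ζ w : ℂ) (z : ℂ × ℂ) :
    (chartAt (ℂ × ℂ) ((ζ, P1.coe w) : MM)).symm z = (z.1, P1.coe z.2) := by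
  have h1 : (chartAt (ℂ × ℂ) ((ζ, P1.coe w) : MM)).symm z = (z.1, (chartAt ℂ (P1.coe w)).symm z.2) := rfl
  have h2 : chartAt ℂ (P1.coe w) = P1.chartZero := if_neg (P1.coe_ne_inf w)
  rw [h1, h2, P1.chartZero_symm]

theorem chart_coe_apply (ζ w : ℂ) :
    chartAt (ℂ × ℂ) ((ζ, P1.coe w) : MM) (ζ, P1.coe w) = (ζ, w) := by
  have h1 : chartAt (ℂ × ℂ) ((ζ, P1.coe w) : MM) (ζ, P1.coe w) =
    (ζ, (chartAt ℂ (P1.coe w)) (P1.coe w)) := rfl
  have h2 : chartAt ℂ (P1.coe w) = P1.chartZero := if_neg (P1.coe_ne_inf w)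
  rw [h1, h2, P1.chartZero_coe]

theorem outer_germ {p : MM} (hp : 1 / 2 < ‖p.1‖ ^ 2) :
    (ff ∘ (chartAt (ℂ × ℂ) p).symm) =ᶠ[𝓝 (chartAt (ℂ × ℂ) p p)] fun z : ℂ × ℂ => ‖z.1‖ ^ 2 := by
  have ho : IsOpen {z : ℂ × ℂ | 1 / 2 < ‖z.1‖ ^ 2} := isOpen_lt continuous_const (by fun_prop)
  filter_upwards [ho.mem_nhds (show chartAt (ℂ × ℂ) p p ∈ {z : ℂ × ℂ | 1 / 2 < ‖z.1‖ ^ 2} from hp)]
    with z hz
  exact ff_outer (p := (chartAt (ℂ × ℂ) p).symm z) hz

theorem inner_germ (ζ w : ℂ) (hw : ‖w‖ < 1 / 4) :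
    (ff ∘ (chartAt (ℂ × ℂ) ((ζ, P1.coe w) : MM)).symm)
      =ᶠ[𝓝 (chartAt (ℂ × ℂ) ((ζ, P1.coe w) : MM) (ζ, P1.coe w))] mod := by
  rw [chart_coe_apply]
  have ho : IsOpen {z : ℂ × ℂ | ‖z.2‖ < 1 / 4} := isOpen_lt (by fun_prop) continuous_const
  filter_upwards [ho.mem_nhds (show (ζ, w) ∈ {z : ℂ × ℂ | ‖z.2‖ < 1 / 4} from hw)] with z hz
  show ff ((chartAt (ℂ × ℂ) ((ζ, P1.coe w) : MM)).symm z) = mod z
  rw [chart_coe, ff_inner z.1 z.2 hz]

theorem ff_psh (p : MM) (hp : p ∈ NN) :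
    SmoothAt (ℂ × ℂ) ff p ∧ ∀ v, 0 ≤ leviAt (ℂ × ℂ) ff p v := by
  by_cases h : 1 / 2 < ‖p.1‖ ^ 2
  · refine ⟨?_, fun v => ?_⟩
    · have h1 : ContDiffAt ℝ ∞ (fun z : ℂ × ℂ => ‖z.1‖ ^ 2) (chartAt (ℂ × ℂ) p p) :=
        (contDiff_fst.norm_sq ℝ).contDiffAt
      exact h1.congr_of_eventuallyEq (outer_germ h)
    · unfold leviAt
      rw [levi_congr (outer_germ h) v]
      exact levi_sq _ v
  · obtain ⟨ζ, x⟩ := p
    have hx : x ∈ disc := hp.resolve_left h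
    obtain ⟨w, hw, rfl⟩ := hx
    have hw1 : ‖w‖ < 1 / 4 := by simpa using hw
    refine ⟨?_, fun v => ?_⟩
    · exact (mod_smooth.contDiffAt).congr_of_eventuallyEq (inner_germ ζ w hw1)
    · unfold leviAt
      rw [levi_congr (inner_germ ζ w hw1) v, chart_coe_apply]
      have h1 := levi_mod (ζ, w) v
      have h2 : ‖w‖ ^ 2 ≤ 1 / 16 := by nlinarith [norm_nonneg w]
      have h3 : tA (‖w‖ ^ 2 + 1 / 8 - ‖ζ‖ ^ 2 / 2) ≤ 1 := tA_le_one (by
        have := sq_nonneg ‖ζ‖; linarith)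
      have h4 := tA_nonneg (‖w‖ ^ 2 + 1 / 8 - ‖ζ‖ ^ 2 / 2)
      have h5 : 0 ≤ (4 - 2 * tA (‖w‖ ^ 2 + 1 / 8 - ‖ζ‖ ^ 2 / 2)) * ‖v.1‖ ^ 2 :=
        mul_nonneg (by linarith) (sq_nonneg _)
      have h6 : 0 ≤ 4 * tA (‖w‖ ^ 2 + 1 / 8 - ‖ζ‖ ^ 2 / 2) * ‖v.2‖ ^ 2 :=
        mul_nonneg (by linarith) (sq_nonneg _)
      have h7 : 0 ≤ 4 * levi mod (ζ, w) v := le_trans (add_nonneg h5 h6) h1
      linarith

theorem ff_strict (v : ℂ × ℂ) (hv : v ≠ 0) : 0 < leviAt (ℂ × ℂ) ff ((0, P1.coe 0) : MM) v := by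
  unfold leviAt
  rw [levi_congr (inner_germ 0 0 (by simp)) v, chart_coe_apply]
  have h1 := levi_mod (0, 0) v
  have h2 : ‖((0, 0) : ℂ × ℂ).2‖ ^ 2 + 1 / 8 - ‖((0, 0) : ℂ × ℂ).1‖ ^ 2 / 2 = 1 / 8 := by simp
  rw [h2] at h1
  have h3 : tA (1 / 8) ≤ 1 := tA_le_one (by norm_num)
  have h4 : 0 < tA (1 / 8) := tA_pos (by norm_num)
  have h5 : 0 < ‖v.1‖ ^ 2 ∨ 0 < ‖v.2‖ ^ 2 := by
    by_contra hcon
    push Not at hcon
    have e1 : v.1 = 0 := by
      have := hcon.1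
      have h : ‖v.1‖ = 0 := by nlinarith [norm_nonneg v.1]
      exact norm_eq_zero.1 h
    have e2 : v.2 = 0 := by
      have := hcon.2
      have h : ‖v.2‖ = 0 := by nlinarith [norm_nonneg v.2]
      exact norm_eq_zero.1 h
    exact hv (Prod.ext e1 e2)
  have h6 : 0 ≤ (4 - 2 * tA (1 / 8)) * ‖v.1‖ ^ 2 := mul_nonneg (by linarith) (sq_nonneg _)
  have h7 : 0 ≤ 4 * tA (1 / 8) * ‖v.2‖ ^ 2 := mul_nonneg (by linarith) (sq_nonneg _)
  rcases h5 with h5 | h5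
  · have h8 : 0 < (4 - 2 * tA (1 / 8)) * ‖v.1‖ ^ 2 := mul_pos (by linarith) h5
    linarith
  · have h8 : 0 < 4 * tA (1 / 8) * ‖v.2‖ ^ 2 := mul_pos (by linarith) h5
    linarith

theorem hat_preconnected (r : ℝ) : IsPreconnected (hat 2 r) := by
  have h1 : Convex ℝ (hat 2 r) := by
    have h2 : hat 2 r = Metric.closedBall (0 : E2) 1 ∩ {z | r ≤ (z 0).re} := by
      ext z; simp [hat]
    rw [h2]
    refine (convex_closedBall _ _).inter ?_
    intro x hx y hy a b ha hb hab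
    have hx' : r ≤ (x 0).re := hx
    have hy' : r ≤ (y 0).re := hy
    show r ≤ ((a • x + b • y) 0).re
    have h3 : ((a • x + b • y) 0).re = a * (x 0).re + b * (y 0).re := by simp
    rw [h3]
    have e1 := mul_le_mul_of_nonneg_left hx' ha
    have e2 := mul_le_mul_of_nonneg_left hy' hb
    have e3 : a * r + b * r = r := by rw [← add_mul, hab, one_mul]
    linarith
  exact h1.isPreconnected

/-- a spherical cut does not change `KK` -/
theorem cut_trivial (K'' : Set MM) (h : SphericalCut (ℂ × ℂ) 2 KK K'') : K'' = KK := by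
  obtain ⟨-, -, r, U, Φ, hr0, hr1, hU, hhat, hΦ, -, hcap, rfl⟩ := h
  have hΦ' : MDifferentiableOn 𝓘(ℂ, E2) ((𝓘(ℂ, ℂ)).prod 𝓘(ℂ, ℂ)) Φ U := by
    rw [← modelWithCornersSelf_prod]; exact hΦ
  have h1 : DifferentiableOn ℂ (fun z => (Φ z).1) U :=
    mdifferentiableOn_iff_differentiableOn.1 (mdifferentiable_fst.comp_mdifferentiableOn hΦ')
  have h2 : MDifferentiableOn 𝓘(ℂ, E2) 𝓘(ℂ, ℂ) (fun z => (Φ z).2) U :=
    mdifferentiable_snd.comp_mdifferentiableOn hΦ'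
  have hcapsub : cap 2 r ⊆ hat 2 r := fun z hz => ⟨hz.1.le, hz.2⟩
  have hΦcap : ∀ z ∈ cap 2 r, Φ z ∉ KK := by
    intro z hz hK
    have : Φ z ∈ Φ '' cap 2 r ∩ KK := ⟨⟨z, hz, rfl⟩, hK⟩
    rw [hcap] at this
    exact this
  -- the circle fibres
  have step1 : ∀ z ∈ hat 2 r, ‖(Φ z).1‖ ≠ 1 := by
    intro z hz hz1
    have h3 := cut_lemma r {y | y ∈ U ∧ (Φ y).1 = (Φ z).1} ?_ ?_ ?_
    · have h4 : z ∈ {y | y ∈ U ∧ (Φ y).1 = (Φ z).1} ∩ hat 2 r := ⟨⟨hhat hz, rfl⟩, hz⟩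
      rw [h3] at h4
      exact h4
    · have h4 : {y | y ∈ U ∧ (Φ y).1 = (Φ z).1} ∩ hat 2 r =
          hat 2 r ∩ (fun y => (Φ y).1) ⁻¹' {(Φ z).1} := by
        ext y
        constructor
        · rintro ⟨⟨_, hy⟩, hy2⟩; exact ⟨hy2, hy⟩
        · rintro ⟨hy, hy2⟩; exact ⟨⟨hhat hy, hy2⟩, hy⟩
      rw [h4]
      exact (h1.continuousOn.mono hhat).preimage_isClosed_of_isClosed (hat_compact r).isClosed
        isClosed_singleton
    · rintro p ⟨⟨hpU, -⟩, -⟩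
      refine ⟨U, fun y => (Φ y).1 - (Φ z).1, hU, hpU, h1.sub_const _, fun y hy => ?_⟩
      rw [sub_eq_zero]
      exact ⟨fun h => h.2, fun h => ⟨hy, h⟩⟩
    · ext y
      simp only [mem_inter_iff, mem_ofPred_eq, mem_empty_iff_false, iff_false, not_and]
      rintro ⟨-, hy⟩ hyc
      refine hΦcap y hyc (Or.inl ⟨?_, mem_univ _⟩)
      rw [mem_sphere_zero_iff_norm, hy, hz1]
  have hne : ∀ z ∈ hat 2 r, Φ z ∉ KK := by
    have himg : IsPreconnected ((fun z => ‖(Φ z).1‖) '' hat 2 r) :=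
      (hat_preconnected r).image _ ((h1.continuousOn.mono hhat).norm)
    by_cases hlt : ∃ z0 ∈ hat 2 r, ‖(Φ z0).1‖ < 1
    · obtain ⟨z0, hz0, hz01⟩ := hlt
      have hall : ∀ z ∈ hat 2 r, ‖(Φ z).1‖ < 1 := by
        intro z hz
        by_contra hcon
        have hgt : 1 < ‖(Φ z).1‖ := lt_of_le_of_ne (not_lt.1 hcon) (Ne.symm (step1 z hz))
        have h3 := himg.ordConnected.out ⟨z0, hz0, rfl⟩ ⟨z, hz, rfl⟩
        obtain ⟨y, hy, hy1⟩ := h3 ⟨hz01.le, hgt.le⟩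
        exact step1 y hy hy1
      -- the central disc
      have step2 : ({y | y ∈ U ∧ (Φ y).2 = P1.coe 0} : Set E2) ∩ hat 2 r = ∅ := by
        refine cut_lemma r _ ?_ ?_ ?_
        · have h4 : {y | y ∈ U ∧ (Φ y).2 = P1.coe 0} ∩ hat 2 r =
              hat 2 r ∩ (fun y => (Φ y).2) ⁻¹' {P1.coe 0} := by
            ext y
            constructor
            · rintro ⟨⟨_, hy⟩, hy2⟩; exact ⟨hy2, hy⟩
            · rintro ⟨hy, hy2⟩; exact ⟨⟨hhat hy, hy2⟩, hy⟩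
          rw [h4]
          exact (h2.continuousOn.mono hhat).preimage_isClosed_of_isClosed (hat_compact r).isClosed
            isClosed_singleton
        · rintro p ⟨⟨hpU, hp0⟩, -⟩
          have hO : IsOpen (U ∩ (fun y => (Φ y).2) ⁻¹' P1.chartZero.source) :=
            h2.continuousOn.isOpen_inter_preimage hU P1.chartZero.open_source
          have hmem : P1.chartZero ∈ atlas ℂ P1 := Or.inl rfl
          have hd : MDifferentiableOn 𝓘(ℂ, E2) 𝓘(ℂ, ℂ) (fun y => P1.chartZero (Φ y).2)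
              (U ∩ (fun y => (Φ y).2) ⁻¹' P1.chartZero.source) :=
            (mdifferentiableOn_atlas (I := 𝓘(ℂ, ℂ)) hmem).comp (h2.mono inter_subset_left)
              (fun y hy => hy.2)
          refine ⟨_, fun y => P1.chartZero (Φ y).2, hO, ⟨hpU, ?_⟩,
            mdifferentiableOn_iff_differentiableOn.1 hd, fun y hy => ?_⟩
          · show (Φ p).2 ∈ P1.chartZero.source
            rw [hp0, P1.chartZero_source]; exact ⟨0, rfl⟩
          · have hy2 : (Φ y).2 ∈ range P1.coe := by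
              rw [← P1.chartZero_source]; exact hy.2
            obtain ⟨w, hw⟩ := hy2
            constructor
            · rintro ⟨-, h⟩
              show P1.chartZero (Φ y).2 = 0
              rw [h, P1.chartZero_coe]
            · intro h
              have h' : P1.chartZero (Φ y).2 = 0 := h
              rw [← hw, P1.chartZero_coe] at h'
              exact ⟨hy.1, by rw [← hw, h']⟩
        · ext y
          simp only [mem_inter_iff, mem_ofPred_eq, mem_empty_iff_false, iff_false, not_and]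
          rintro ⟨-, hy⟩ hyc
          refine hΦcap y hyc (Or.inr ⟨?_, hy⟩)
          rw [mem_closedBall_zero_iff]
          exact (hall y (hcapsub hyc)).le
      rintro z hz (⟨h3, -⟩ | ⟨-, h3⟩)
      · exact step1 z hz (mem_sphere_zero_iff_norm.1 h3)
      · have h4 : z ∈ ({y | y ∈ U ∧ (Φ y).2 = P1.coe 0} : Set E2) ∩ hat 2 r := ⟨⟨hhat hz, h3⟩, hz⟩
        rw [step2] at h4
        exact h4
    · push Not at hlt
      rintro z hz (⟨h3, -⟩ | ⟨h3, -⟩)
      · exact step1 z hz (mem_sphere_zero_iff_norm.1 h3)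
      · have h4 := hlt z hz
        rw [mem_closedBall_zero_iff] at h3
        exact step1 z hz (le_antisymm h3 h4)
  refine sdiff_eq_left.2 ?_
  rw [disjoint_left]
  rintro _ hK ⟨z, hz, rfl⟩
  exact hne z (interior_subset hz) hK

theorem nucleus_KK : nucleus (ℂ × ℂ) 2 KK = KK := by
  have h1 : ∀ K' : Set MM, Relation.ReflTransGen (SphericalCut (ℂ × ℂ) 2) KK K' → K' = KK := by
    intro K' h
    induction h with
    | refl => rfl
    | tail _ h2 ih => rw [ih] at h2; exact cut_trivial _ h2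
  refine Subset.antisymm (sInter_subset_of_mem Relation.ReflTransGen.refl) ?_
  refine subset_sInter fun K' hK' => ?_
  rw [h1 K' hK']

/-- Q1 is false. -/
theorem result : ¬ ∀ (n : ℕ) [NeZero n] (V : Type) [NormedAddCommGroup V] [NormedSpace ℂ V]
    [FiniteDimensional ℂ V] (M : Type) [TopologicalSpace M] [ChartedSpace V M]
    [IsManifold 𝓘(ℂ, V) ω M] [T2Space M] [SecondCountableTopology M],
    Module.finrank ℂ V = n → ∀ K : Set M, IsCompact K → nucleus V n K ⊆ core V K := by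
  intro h
  have : SecondCountableTopology MM := secondCountable
  have h1 := h 2 (ℂ × ℂ) MM (by simp) KK KK_compact
  have h2 : ((0, P1.coe 0) : MM) ∈ nucleus (ℂ × ℂ) 2 KK := by
    rw [nucleus_KK]
    exact Or.inr ⟨by simp, rfl⟩
  exact (h1 h2).2 ⟨NN, ff, NN_open, KK_sub_NN, ff_psh, ff_strict⟩

end Pool.Agent.Results.MP_60ed70_an.CoreNucleus
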